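import Pool.Agent.T2H22.AD.FinA

/-! Project AQ (selections): clusters of primes in a class from which, cluster by cluster, some primes are selected. -/

set_option autoImplicit false

open Finset

namespace Pool.Agent.T2H22.AQ

open Pool.Agent.H361R2.PP
open Pool.Agent.W70.HR
open Pool.Agent.T2H22.AA

open Classical in
theorem lowQ (k k1 : ℕ) (hkk : k ≤ k1) : ∃ (k2 : ℕ) (δ : ℝ), k1 ≤ k2 ∧ 1 ≤ k2 ∧ 0 < δ ∧ δ ≤ 1 / 8 ∧
    ∀ S : Finset ℕ, S.card = k2 → (∀ a ∈ S, 1 ≤ a) → ∃ c : ℝ, 0 < c ∧ ∃ X₀ : ℕ, ∀ X : ℕ, X₀ ≤ X →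
    ∀ b : ℕ, b < Wm X → (∀ a ∈ S, (b + a).Coprime (Wm X)) → ∀ Q : ℕ → ℕ → Prop,
    (∀ y ∈ SI X b, k1 ≤ (S.filter (fun a => (y + a).Prime)).card → k ≤ (S.filter (fun a => Q y a)).card) →
    ∃ S' ⊆ S, S'.card = k ∧ ∃ G : Finset ℕ, G ⊆ SI X b ∧
      (∀ y ∈ G, ∀ a ∈ S, ∀ p : ℕ, p.Prime → HH X < p → p < 2 ^ 2 ^ JJ δ X → ¬ p ∣ y + a) ∧
      (∀ y ∈ G, ∀ a ∈ S', Q y a) ∧ c * Om δ X S.card ≤ (G.card : ℝ) := by
  obtain ⟨k2, δ, hk1, hk2, hδ, hδ8, hlow⟩ := lowB k1
  refine ⟨k2, δ, hk1, hk2, hδ, hδ8, ?_⟩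
  intro S hS hS1
  obtain ⟨c, hc, X₀, hlow⟩ := hlow S hS hS1
  refine ⟨c / 2 ^ k2, by positivity, X₀, ?_⟩
  intro X hX b hb hbS Q hQ
  obtain ⟨S1, hS1S, hS1c, G, hG, hGr, hGp, hGc⟩ := hlow X hX b hb hbS
  have hsel : ∀ y ∈ G, ∃ f : Finset ℕ, f ⊆ S.filter (fun a => Q y a) ∧ f.card = k := by
    intro y hy
    apply exists_subset_card_eq
    apply hQ y (hG hy)
    rw [← hS1c]
    apply card_le_card
    intro a ha
    rw [mem_filter]
    exact ⟨hS1S ha, hGp y hy a ha⟩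
  choose! f hf1 hf2 using hsel
  have hmaps : ∀ y ∈ G, f y ∈ S.powerset := by
    intro y hy
    rw [mem_powerset]
    exact (hf1 y hy).trans (filter_subset _ _)
  have hcard : S.powerset.card = 2 ^ k2 := by rw [card_powerset, hS]
  -- the pigeonhole principle
  obtain ⟨S', hS', hbig⟩ : ∃ S' ∈ S.powerset, (G.card : ℝ) / 2 ^ k2 ≤ ((G.filter (fun y => f y = S')).card : ℝ) := by
    by_contra hcon
    push Not at hcon
    have h1 : (G.card : ℝ) = ∑ S' ∈ S.powerset, ((G.filter (fun y => f y = S')).card : ℝ) := by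
      have := card_eq_sum_card_fiberwise (f := f) (s := G) (t := S.powerset) (fun y hy => mem_coe.2 (hmaps y (mem_coe.1 hy)))
      exact_mod_cast this
    have hne : (S.powerset).Nonempty := ⟨∅, empty_mem_powerset S⟩
    have h2 : ∑ S' ∈ S.powerset, ((G.filter (fun y => f y = S')).card : ℝ) <
        ∑ S' ∈ S.powerset, (G.card : ℝ) / 2 ^ k2 := sum_lt_sum_of_nonempty hne hcon
    rw [sum_const, hcard, nsmul_eq_mul] at h2
    push_cast at h2
    rw [mul_div_cancel₀ _ (by positivity)] at h2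
    linarith
  rcases (G.filter (fun y => f y = S')).eq_empty_or_nonempty with he | hne
  · -- no elements
    have hG0 : (G.card : ℝ) ≤ 0 := by
      rw [he, card_empty, Nat.cast_zero, div_le_iff₀ (by positivity), zero_mul] at hbig
      exact hbig
    have hOm : c * Om δ X S.card ≤ 0 := hGc.trans hG0
    obtain ⟨S'', hS'', hS''c⟩ := exists_subset_card_eq (s := S) (n := k) (by rw [hS]; omega)
    refine ⟨S'', hS'', hS''c, ∅, empty_subset _, by simp, by simp, ?_⟩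
    rw [card_empty, Nat.cast_zero]
    have : c / 2 ^ k2 * Om δ X S.card = (c * Om δ X S.card) / 2 ^ k2 := by ring
    rw [this]
    exact div_nonpos_of_nonpos_of_nonneg hOm (by positivity)
  · obtain ⟨y0, hy0⟩ := hne
    rw [mem_filter] at hy0
    refine ⟨S', mem_powerset.1 hS', ?_, G.filter (fun y => f y = S'), (filter_subset _ _).trans hG, ?_, ?_, ?_⟩
    · rw [← hy0.2]
      exact hf2 y0 hy0.1
    · intro y hy
      exact hGr y (mem_filter.1 hy).1
    · intro y hy a ha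
      rw [mem_filter] at hy
      have h1 := hf1 y hy.1
      rw [hy.2] at h1
      exact (mem_filter.1 (h1 ha)).2
    · refine le_trans ?_ hbig
      have : c / 2 ^ k2 * Om δ X S.card = (c * Om δ X S.card) / 2 ^ k2 := by ring
      rw [this]
      gcongr

end Pool.Agent.T2H22.AQ
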