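import Pool.Agent.T2H22.AD.AsmA
import Pool.Agent.T2H22.AQ.Low

/-! Auxiliary lemmas for `AQ/Asm.lean` (a separate file, so that the long theorems are compiled in parallel). -/

set_option autoImplicit false

open Finset

namespace Pool.Agent.T2H22.AQ

open Pool.Agent.T2H22.AA

open Pool.Agent.H361R2.PP
open Pool.Agent.W70.HR
open Pool.Agent.H862R2.PPSm5 (vv_lower HH_tendsto log_tendsto)
open Pool.Agent.H373R2.T7 (Vz pz mem_pz)
open Pool.Agent.T2H22.BG (sh sh_inj)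

open Classical in
/-- the number of the good `x` -/
noncomputable def gdQ (S : Finset ℕ) (τ : ℕ → ℕ) (Q : ℕ → ℕ → Prop) (r X N : ℕ) : ℕ :=
  ((Ico (4 * X) (8 * X)).filter (fun x => x ≤ N ∧
    r ≤ (S.filter (fun a => Q (N - x) a ∧ (x + τ a).Prime)).card)).card

/-- the local condition -/
def LocQ (S : Finset ℕ) (τ : ℕ → ℕ) (C : ℕ → Prop) (X u : ℕ) : Prop :=
  ∃ b1 b2 : ℕ, b1 < Wm X ∧ b2 < Wm X ∧ b1 + b2 ≡ u [MOD Wm X] ∧
      (∀ a ∈ S, (b2 + a).Coprime (Wm X)) ∧ (∀ a ∈ S, (b1 + τ a).Coprime (Wm X)) ∧ C b2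

theorem LocQ_congr {S : Finset ℕ} {τ : ℕ → ℕ} {C : ℕ → Prop} {X u v : ℕ} (h : u ≡ v [MOD Wm X])
    (hu : LocQ S τ C X u) : LocQ S τ C X v := by
  obtain ⟨b1, b2, h1, h2, h3, h4, h5, h6⟩ := hu
  exact ⟨b1, b2, h1, h2, h3.trans h, h4, h5, h6⟩

/-- the number of the clusters -/
theorem count_leQ (Q : ℕ → ℕ → Prop) (S S' : Finset ℕ) (hS' : S' ⊆ S) (τ : ℕ → ℕ) (hτ : Set.InjOn τ S) (r X : ℕ) (ρ : ℕ → ℝ)
    (hρ : ∀ x, 0 ≤ ρ x) (hρ1 : ∀ x, ρ x ≤ 1) (E G : Finset ℕ) (hG : ∀ y ∈ G, ∀ a ∈ S', Q y a) :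
    ∑ n ∈ (range (8 * X)).filter (fun n => r ≤ ((S'.image τ).filter
      (fun a => (n + a).Prime)).card), wI X ρ E G n ≤ ∑ N ∈ E, (gdQ S τ Q r X N : ℝ) := by
  classical
  set P : ℕ → Prop := fun n => r ≤ ((S'.image τ).filter (fun a => (n + a).Prime)).card
    with hP
  set I' := (Ico (4 * X) (8 * X)).filter P with hI'
  have h1 : ∑ n ∈ (range (8 * X)).filter P, wI X ρ E G n ≤ ∑ x ∈ I', (1 : ℝ) * mm E G x := by
    have h2 : I' = ((range (8 * X)).filter P).filter (fun x => x ∈ Ico (4 * X) (8 * X)) := by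
      ext x
      rw [hI', mem_filter, mem_filter, mem_filter, mem_range, mem_Ico]
      constructor
      · rintro ⟨a, b⟩
        exact ⟨⟨a.2, b⟩, a⟩
      · rintro ⟨⟨a, b⟩, c⟩
        exact ⟨c, b⟩
    rw [h2, sum_filter (s := (range (8 * X)).filter P)]
    apply sum_le_sum
    intro x _
    unfold wI
    split_ifs with h
    · rw [one_mul]
      calc ρ x * mm E G x ≤ 1 * mm E G x := mul_le_mul_of_nonneg_right (hρ1 x) (mm_nonneg _ _ _)
        _ = _ := one_mul _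
    · exact le_rfl
  refine h1.trans ?_
  rw [mm_sum]
  apply sum_le_sum
  intro N _
  rw [sum_comm]
  have h3 : ∀ x ∈ I', ∑ y ∈ G, (if x + y = N then (1 : ℝ) else 0) ≤
      if x ≤ N ∧ N - x ∈ G then 1 else 0 := by
    intro x _
    by_cases h : x ≤ N ∧ N - x ∈ G
    · rw [if_pos h, sum_eq_single (N - x)]
      · split_ifs <;> norm_num
      · intro y _ hne
        rw [if_neg (by omega)]
      · intro h'
        exact absurd h.2 h'
    · rw [if_neg h]
      apply le_of_eq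
      apply sum_eq_zero
      intro y hy
      rw [if_neg]
      intro he
      apply h
      have : N - x = y := by omega
      exact ⟨by omega, by rwa [this]⟩
  refine (sum_le_sum h3).trans ?_
  rw [← sum_filter, sum_const, nsmul_eq_mul, mul_one]
  apply Nat.cast_le.2
  unfold gdQ
  apply card_le_card
  intro x hx
  rw [mem_filter, hI', mem_filter] at hx
  rw [mem_filter]
  refine ⟨hx.1.1, hx.2.1, ?_⟩
  have h4 : r ≤ ((S'.image τ).filter (fun a => (x + a).Prime)).card := hx.1.2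
  refine h4.trans ?_
  have h5 : (S'.image τ).filter (fun a => (x + a).Prime) ⊆
      (S.filter (fun a => Q (N - x) a ∧ (x + τ a).Prime)).image τ := by
    intro t ht
    rw [mem_filter, mem_image] at ht
    obtain ⟨⟨a, ha, rfl⟩, hp⟩ := ht
    rw [mem_image]
    refine ⟨a, ?_, rfl⟩
    rw [mem_filter]
    exact ⟨hS' ha, hG _ hx.2.2 a ha, hp⟩
  exact (card_le_card h5).trans card_image_le

end Pool.Agent.T2H22.AQ
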