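import Pool.Agent.T2H22.AQ.Asm
import Pool.Agent.T2H22.AD.Gen

/-! Project AQ (selections): the theorem for almost all integers. -/

set_option autoImplicit false

open Finset

namespace Pool.Agent.T2H22.AQ

open Pool.Agent.T2H22.AA
open Pool.Agent.W70.HR
open Pool.Agent.H361R2.PP
open Pool.Agent.H379R2.PP (exists_rep)
open Pool.Agent.H862R2.PPSm5 (log_tendsto HH_tendsto)

/-- `d` lies between elements of `S` but not in `S` -/
def Gap (S : Finset ℕ) (d : ℕ) : Prop := d ∉ S ∧ (∃ a ∈ S, a ≤ d) ∧ ∃ a ∈ S, d ≤ a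

/-- all the primes from `y + min S` to `y + max S` are of the form `y + a`, `a ∈ S` -/
def Iso (S : Finset ℕ) (y : ℕ) : Prop := ∀ d : ℕ, Gap S d → ¬ (y + d).Prime

/-- the class `b` modulo `Wm X` forces this -/
def CI (S : Finset ℕ) (X b : ℕ) : Prop := ∀ d : ℕ, Gap S d → ¬ (b + d).Coprime (Wm X)

open Classical in
/-- the selection `Q` selects at least `k` of at least `k1` primes -/
def Sel (S : Finset ℕ) (k1 k : ℕ) (Q : ℕ → ℕ → Prop) : Prop :=
  ∀ y : ℕ, Iso S y → k1 ≤ (S.filter (fun a => (y + a).Prime)).card → k ≤ (S.filter (fun a => Q y a)).card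

theorem iso_of {S : Finset ℕ} {X b y : ℕ} (hX : 16 ≤ X) (hC : CI S X b) (hy : y ∈ SI X b) : Iso S y := by
  intro d hd hp
  have h1 := hC d hd
  rw [Nat.Prime.not_coprime_iff_dvd] at h1
  obtain ⟨p, hpp, hp1, hp2⟩ := h1
  unfold SI at hy
  rw [mem_filter, mem_Ico] at hy
  obtain ⟨⟨hy1, hy2⟩, hy3⟩ := hy
  have h2 : y + d ≡ b + d [MOD p] := by
    apply Nat.ModEq.add_right
    apply Nat.ModEq.of_dvd hp2
    unfold Nat.ModEq
    rw [hy3]
    rw [← hy3, Nat.mod_mod]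
  have h3 : p ∣ y + d := (Nat.ModEq.dvd_iff h2 dvd_rfl).2 hp1
  have h4 : p = y + d := (Nat.prime_dvd_prime_iff_eq hpp hp).1 h3
  have h5 : p ≤ Wm X := Nat.le_of_dvd (Wm_pos X) hp2
  have h6 : (Wm X : ℝ) < X := by
    have hX0 : (0 : ℝ) < X := by
      have : 0 < X := by omega
      exact_mod_cast this
    have hl : 1 ≤ Real.log (X : ℝ) := by
      rw [Real.le_log_iff_exp_le hX0]
      have := Real.exp_one_lt_d9
      have h16 : (16 : ℝ) ≤ X := by exact_mod_cast hX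
      linarith
    calc (Wm X : ℝ) ≤ Real.log X ^ (7 / 20 : ℝ) := Pool.Agent.H325R2.wtx.1 X hX
      _ ≤ Real.log X ^ (1 : ℝ) := Real.rpow_le_rpow_of_exponent_le hl (by norm_num)
      _ = Real.log X := Real.rpow_one _
      _ ≤ X - 1 := Real.log_le_sub_one_of_pos hX0
      _ < X := by linarith
  have h7 : Wm X < X := by exact_mod_cast h6
  omega

/-- the local condition from the conditions for the primes -/
theorem locQ_of (S : Finset ℕ) (τ : ℕ → ℕ) (X u : ℕ) (f : ℕ → ℕ)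
    (hf : ∀ p : ℕ, p.Prime → ∀ a ∈ S, ¬ p ∣ f p + a ∧ ¬ f p ≡ u + τ a [MOD p]) (C : ℕ → Prop)
    (hC : ∀ b : ℕ, (∀ p : ℕ, p.Prime → p ≤ HH X → b ≡ f p [MOD p]) → C b) : LocQ S τ C X u := by
  classical
  set P : Finset ℕ := (range (HH X + 1)).filter Nat.Prime with hP
  have hPp : ∀ p ∈ P, p.Prime := fun p hp => (mem_filter.1 hp).2
  have hW0 : 0 < Wm X := Wm_pos X
  have hWP : Wm X = ∏ p ∈ P, p := rfl
  obtain ⟨r, hr⟩ := exists_rep P hPp (fun p => f p % p) (by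
    intro p hp
    exact Nat.mod_lt _ (hPp p hp).pos)
  set b2 := r % Wm X with hb2
  set b1 := (u + (Wm X - b2)) % Wm X with hb1
  have hb2lt : b2 < Wm X := Nat.mod_lt _ hW0
  have hsum : b1 + b2 ≡ u [MOD Wm X] := by
    have h1 : b1 ≡ u + (Wm X - b2) [MOD Wm X] := Nat.mod_modEq _ _
    have h2 : b1 + b2 ≡ u + (Wm X - b2) + b2 [MOD Wm X] := Nat.ModEq.add_right _ h1
    have h3 : u + (Wm X - b2) + b2 = u + Wm X := by omega
    rw [h3] at h2
    refine h2.trans ?_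
    have : u + Wm X ≡ u + 0 [MOD Wm X] := Nat.ModEq.add_left u (by simp [Nat.ModEq])
    simpa using this
  have hb2f : ∀ p ∈ P, b2 ≡ f p [MOD p] := by
    intro p hp
    have hpW : p ∣ Wm X := by rw [hWP]; exact dvd_prod_of_mem _ hp
    have h4 : b2 ≡ r [MOD p] := (Nat.mod_modEq r (Wm X)).of_dvd hpW
    refine h4.trans ?_
    have h1 := hr p hp
    unfold Nat.ModEq
    rw [h1]
  have hbp : ∀ p ∈ P, ∀ a ∈ S, ¬ p ∣ b2 + a ∧ ¬ b2 ≡ u + τ a [MOD p] := by
    intro p hp a ha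
    have hpp := hPp p hp
    have h2 := hf p hpp a ha
    have h3 := hb2f p hp
    have h4 : b2 + a ≡ f p + a [MOD p] := Nat.ModEq.add_right _ h3
    constructor
    · intro hd
      exact h2.1 ((Nat.ModEq.dvd_iff h4 dvd_rfl).1 hd)
    · intro hd
      exact h2.2 (h3.symm.trans hd)
  have hcop : ∀ x : ℕ, (∀ p ∈ P, ¬ p ∣ x) → x.Coprime (Wm X) := by
    intro x hx
    rw [hWP]
    apply Nat.Coprime.prod_right
    intro p hp
    rw [Nat.coprime_comm]
    exact ((hPp p hp).coprime_iff_not_dvd).2 (hx p hp)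
  refine ⟨b1, b2, Nat.mod_lt _ hW0, hb2lt, hsum, ?_, ?_, ?_⟩
  · intro a ha
    exact hcop _ fun p hp => (hbp p hp a ha).1
  · intro a ha
    apply hcop
    intro p hp hd
    have hpW : p ∣ Wm X := by rw [hWP]; exact dvd_prod_of_mem _ hp
    apply (hbp p hp a ha).2
    have h1 : b1 + τ a ≡ 0 [MOD p] := (Nat.modEq_zero_iff_dvd).2 hd
    have h2 : b1 + b2 ≡ u [MOD p] := hsum.of_dvd hpW
    have h3 : b1 + b2 + τ a ≡ u + τ a [MOD p] := Nat.ModEq.add_right _ h2
    have h4 : b1 + b2 + τ a = (b1 + τ a) + b2 := by ring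
    rw [h4] at h3
    have h5 : (b1 + τ a) + b2 ≡ 0 + b2 [MOD p] := Nat.ModEq.add_right _ h1
    rw [zero_add] at h5
    exact h5.symm.trans h3
  · apply hC
    intro p hp hpH
    exact hb2f p (mem_filter.2 ⟨mem_range.2 (by omega), hp⟩)

/-- the isolated local condition -/
theorem locI_of (S : Finset ℕ) (τ : ℕ → ℕ) (X u : ℕ) (q : ℕ → ℕ) (hq : ∀ d, (q d).Prime)
    (hqi : Function.Injective q) (hqS : ∀ d, ∀ a ∈ S, a < q d) (hqX : ∀ d, Gap S d → q d ≤ HH X)
    (hu : ∀ d, Gap S d → ∀ a ∈ S, ¬ q d ∣ u + τ a + d)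
    (h : ∀ p : ℕ, p.Prime → ∃ x : ℕ, ∀ a ∈ S, ¬ p ∣ x + a ∧ ¬ x ≡ u + τ a [MOD p]) :
    LocQ S τ (CI S X) X u := by
  classical
  choose g hg using fun p : {p : ℕ // p.Prime} => h p.1 p.2
  have hdlt : ∀ d, Gap S d → d < q d := by
    intro d hd
    obtain ⟨a, ha, hda⟩ := hd.2.2
    exact lt_of_le_of_lt hda (hqS d a ha)
  set f : ℕ → ℕ := fun p => if hp : ∃ d, Gap S d ∧ q d = p then p - hp.choose else
    if hp : p.Prime then g ⟨p, hp⟩ else 0 with hf
  have hfq : ∀ d, Gap S d → f (q d) = q d - d := by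
    intro d hd
    have hex : ∃ d', Gap S d' ∧ q d' = q d := ⟨d, hd, rfl⟩
    have h1 : hex.choose = d := hqi hex.choose_spec.2
    simp only [hf]
    rw [dif_pos hex, h1]
  apply locQ_of S τ X u f
  · intro p hp a ha
    by_cases hex : ∃ d, Gap S d ∧ q d = p
    · obtain ⟨d, hd, rfl⟩ := hex
      rw [hfq d hd]
      have h1 := hdlt d hd
      have h2 := hqS d a ha
      have h3 : a ≠ d := fun h => hd.1 (h ▸ ha)
      constructor
      · intro hdv
        obtain ⟨c, hc⟩ := hdv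
        have hc1 : c = 1 := by
          have hpos : 0 < q d - d + a := by omega
          have hc0 : c ≠ 0 := by
            rintro rfl
            omega
          have hc2 : c < 2 := by
            by_contra hcc
            push Not at hcc
            have : q d * 2 ≤ q d * c := Nat.mul_le_mul_left _ hcc
            omega
          omega
        rw [hc1] at hc
        omega
      · intro hm
        apply hu d hd a ha
        have h4 : q d - d + d ≡ u + τ a + d [MOD q d] := Nat.ModEq.add_right d hm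
        rw [show q d - d + d = q d by omega] at h4
        have h5 : u + τ a + d ≡ 0 [MOD q d] := h4.symm.trans (by simp [Nat.ModEq])
        exact (Nat.modEq_zero_iff_dvd).1 h5
    · have h1 : f p = g ⟨p, hp⟩ := by
        simp only [hf]
        rw [dif_neg hex, dif_pos hp]
      rw [h1]
      exact hg ⟨p, hp⟩ a ha
  · intro b hb d hd hcop
    have h1 := hb (q d) (hq d) (hqX d hd)
    rw [hfq d hd] at h1
    have h2 : b + d ≡ q d - d + d [MOD q d] := Nat.ModEq.add_right d h1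
    have h3 := hdlt d hd
    rw [show q d - d + d = q d by omega] at h2
    have h4 : q d ∣ b + d := (Nat.modEq_zero_iff_dvd).1 (h2.trans (by simp [Nat.ModEq]))
    have h5 : q d ∣ Wm X := by
      unfold Wm
      exact (hq d).dvd_primorial_iff.2 (hqX d hd)
    exact Nat.not_coprime_of_dvd_of_dvd (hq d).one_lt h4 h5 hcop

/-- the integers in a class -/
theorem card_class (q w X : ℕ) (hq : q.Prime) (hq2 : q ≠ 2) :
    (((Icc 1 X).filter (fun n => q ∣ 2 * n + w)).card : ℝ) ≤ X / q + 1 := by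
  have hq0 : 0 < q := hq.pos
  have h1 : ((Icc 1 X).filter (fun n => q ∣ 2 * n + w)).card ≤ X / q + 1 := by
    rw [← card_range (X / q + 1)]
    apply card_le_card_of_injOn (fun n => n / q)
    · intro n hn
      rw [mem_coe, mem_filter, mem_Icc] at hn
      rw [mem_coe, mem_range]
      simp only
      have : n / q ≤ X / q := Nat.div_le_div_right hn.1.2
      omega
    · intro n hn n' hn' he
      rw [mem_coe, mem_filter, mem_Icc] at hn hn'
      simp only at he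
      have h2 : 2 * n ≡ 2 * n' [MOD q] := by
        have h3 : 2 * n + w ≡ 2 * n' + w [MOD q] :=
          ((Nat.modEq_zero_iff_dvd).2 hn.2).trans ((Nat.modEq_zero_iff_dvd).2 hn'.2).symm
        exact Nat.ModEq.add_right_cancel' w h3
      have h3 : n ≡ n' [MOD q] := by
        apply Nat.ModEq.cancel_left_of_coprime _ h2
        exact (Nat.coprime_primes hq Nat.prime_two).2 hq2
      have h4 : n % q = n' % q := h3
      rw [← Nat.div_add_mod n q, ← Nat.div_add_mod n' q, he, h4]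
  have h2 : ((X / q : ℕ) : ℝ) ≤ (X : ℝ) / q := Nat.cast_div_le
  have h3 : (((Icc 1 X).filter (fun n => q ∣ 2 * n + w)).card : ℝ) ≤ ((X / q : ℕ) : ℝ) + 1 := by exact_mod_cast h1
  linarith

open Classical in
/-- almost all integers, for a general pattern and a general selection -/
theorem main_Q (hSec : SecM) (r : ℕ) : ∃ k : ℕ, 1 ≤ k ∧ ∀ k1 : ℕ, k ≤ k1 → ∃ k2 : ℕ, k1 ≤ k2 ∧
    ∀ (S : Finset ℕ) (τ : ℕ → ℕ), S.card = k2 →
    (∀ a ∈ S, 1 ≤ a) → Set.InjOn τ S → (∀ a ∈ S, 1 ≤ τ a) → ∀ e : ℕ, ∃ D : ℕ,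
    ∀ ε : ℝ, 0 < ε → ∀ Y₀ : ℕ, ∃ X₀ : ℕ, ∀ Q : ℕ → ℕ → Prop, Sel S k1 k Q →
    ∀ cnt : ℕ → ℕ, (∀ X n : ℕ, Y₀ ≤ X → X ≤ n → n < 4 * X → e ≤ 2 * n → gdQ S τ Q r X (2 * n - e) ≤ cnt n) →
    ∀ X : ℕ, X₀ ≤ X →
    (((Icc 1 X).filter (fun n : ℕ => (∀ Y : ℕ, Y₀ ≤ Y → LocQ S τ (CI S Y) Y (2 * n - e)) ∧
      (cnt n : ℝ) < n / Real.log n ^ D)).card : ℝ) ≤ ε * X := by
  obtain ⟨k, hk, hone⟩ := oneQ hSec (eqI tR) (eqP tR supF (eqI tR)) r
  refine ⟨k, hk, fun k1 hk1 => ?_⟩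
  obtain ⟨k2, hk2, hone⟩ := hone k1 hk1
  refine ⟨k2, hk2, fun S τ hSc hS1 hτ hτ1 e => ?_⟩
  obtain ⟨D, h⟩ := hone S τ hSc hS1 hτ hτ1
  refine ⟨D + 1, fun ε hε Y₀ => ?_⟩
  obtain ⟨X₁, h1⟩ := h (ε / 12) (by positivity)
  obtain ⟨X₂, h2⟩ := Filter.eventually_atTop.1 (log_tendsto.eventually_ge_atTop (4 : ℝ))
  set Y₁ : ℕ := max (4 * X₁) (max (4 * X₂) (max (4 * Y₀) (12 * e + 100))) with hY₁
  refine ⟨⌈2 * Y₁ / ε⌉₊, fun Q hQ cnt hcnt X hX => ?_⟩
  set P : ℕ → Prop := fun n : ℕ => (∀ Y : ℕ, Y₀ ≤ Y → LocQ S τ (CI S Y) Y (2 * n - e)) ∧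
    (cnt n : ℝ) < n / Real.log n ^ (D + 1) with hP
  have hkey : ∀ Y : ℕ, Y₁ ≤ Y → (((Ioc (5 * Y / 6) Y).filter P).card : ℝ) ≤ ε / 12 * Y := by
    intro Y hY
    simp only [hY₁, max_le_iff] at hY
    obtain ⟨hY1, hY2, hY2', hY3⟩ := hY
    set X : ℕ := Y / 4 + 1 with hX
    have hXX1 : X₁ ≤ X := by omega
    have hXX2 : X₂ ≤ X := by omega
    have hXY0 : Y₀ ≤ X := by omega
    have h3 := h1 X hXX1 (CI S X) Q (fun b _ hC y hy => hQ y (iso_of (by omega) hC hy))
    have hL4 := h2 X hXX2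
    have hXY : (X : ℝ) ≤ Y := by
      have : X ≤ Y := by omega
      exact_mod_cast this
    refine le_trans ?_ (mul_le_mul_of_nonneg_left hXY (by positivity : 0 ≤ ε / 12))
    refine le_trans ?_ h3
    apply Nat.cast_le.2
    apply card_le_card_of_injOn (fun n => 2 * n - e)
    · intro n hn
      rw [mem_coe, mem_filter, mem_Ioc] at hn
      obtain ⟨⟨hn1, hn2⟩, hn3⟩ := hn
      have hn4 : n < 4 * X := by omega
      have hn5 : X ≤ n := by omega
      rw [mem_coe, mem_filter, mem_Ico]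
      simp only
      refine ⟨⟨by omega, by omega⟩, hn3.1 X hXY0, ?_⟩
      have h4 := hcnt X n hXY0 hn5 hn4 (by omega)
      have h5 : (gdQ S τ Q r X (2 * n - e) : ℝ) ≤ cnt n := by exact_mod_cast h4
      refine lt_of_le_of_lt h5 (lt_of_lt_of_le hn3.2 ?_)
      have hX0 : (0 : ℝ) < X := by
        have : 0 < X := by omega
        exact_mod_cast this
      have hnr : (n : ℝ) ≤ 4 * X := by exact_mod_cast hn4.le
      have hXn : (X : ℝ) ≤ n := by exact_mod_cast hn5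
      have hLn : Real.log X ≤ Real.log n := Real.log_le_log hX0 hXn
      have hL0 : 0 < Real.log X := by linarith
      calc (n : ℝ) / Real.log n ^ (D + 1) ≤ (4 * X) / Real.log X ^ (D + 1) := by
            apply div_le_div₀ (by positivity) hnr (by positivity)
            exact pow_le_pow_left₀ hL0.le hLn _
        _ = (4 / Real.log X) * (X / Real.log X ^ D) := by
            rw [pow_succ]
            field_simp
        _ ≤ 1 * (X / Real.log X ^ D) := by
            apply mul_le_mul_of_nonneg_right _ (by positivity)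
            rw [div_le_one hL0]
            exact hL4
        _ = _ := one_mul _
    · intro n hn n' hn' he
      rw [mem_coe, mem_filter, mem_Ioc] at hn hn'
      simp only at he
      omega
  have hit := AD.iter' P (ε / 12) (by positivity) Y₁ (by omega) hkey
  refine (hit X).trans ?_
  have h6 : 2 * (Y₁ : ℝ) / ε ≤ X := (Nat.le_ceil _).trans (by exact_mod_cast hX)
  rw [div_le_iff₀ hε] at h6
  linarith

/-- the large primes for the isolation -/
theorem ex_q (M : ℕ) : ∃ q : ℕ → ℕ, (∀ d, (q d).Prime) ∧ Function.Injective q ∧ ∀ d, M < q d := by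
  refine ⟨fun d => Nat.nth Nat.Prime (M + 1 + d), fun d => Nat.prime_nth_prime _, ?_, fun d => ?_⟩
  · intro a b hab
    have := Nat.nth_injective Nat.infinite_setOf_prime hab
    omega
  · have h1 := (Nat.nth_strictMono Nat.infinite_setOf_prime).le_apply (x := M + 1 + d)
    exact lt_of_lt_of_le (by omega) h1

open Classical in
/-- almost all integers, with the conditions for the primes only -/
theorem all_Q (hSec : SecM) (r : ℕ) : ∃ k : ℕ, 1 ≤ k ∧ ∀ k1 : ℕ, k ≤ k1 → ∃ k2 : ℕ, k1 ≤ k2 ∧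
    ∀ (S : Finset ℕ) (τ : ℕ → ℕ), S.card = k2 →
    (∀ a ∈ S, 1 ≤ a) → Set.InjOn τ S → (∀ a ∈ S, 1 ≤ τ a) → ∀ e : ℕ, ∃ D : ℕ,
    ∀ ε : ℝ, 0 < ε → ∀ Y₀ : ℕ, ∃ X₀ : ℕ, ∀ Q : ℕ → ℕ → Prop, Sel S k1 k Q →
    ∀ cnt : ℕ → ℕ, (∀ X n : ℕ, Y₀ ≤ X → X ≤ n → n < 4 * X → e ≤ 2 * n → gdQ S τ Q r X (2 * n - e) ≤ cnt n) →
    ∀ X : ℕ, X₀ ≤ X →
    (((Icc 1 X).filter (fun n : ℕ => e ≤ 2 * n ∧
      (∀ p : ℕ, p.Prime → ∃ x : ℕ, ∀ a ∈ S, ¬ p ∣ x + a ∧ ¬ x ≡ 2 * n - e + τ a [MOD p]) ∧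
      (cnt n : ℝ) < n / Real.log n ^ D)).card : ℝ) ≤ ε * X := by
  obtain ⟨k, hk, hmain⟩ := main_Q hSec r
  refine ⟨k, hk, fun k1 hk1 => ?_⟩
  obtain ⟨k2, hk2, hmain⟩ := hmain k1 hk1
  refine ⟨k2, hk2, fun S τ hSc hS1 hτ hτ1 e => ?_⟩
  obtain ⟨D, hmain⟩ := hmain S τ hSc hS1 hτ hτ1 e
  refine ⟨D, fun ε hε Y₀ => ?_⟩
  set c0 : ℕ := S.sup id with hc0d
  have hc0 : ∀ a ∈ S, a ≤ c0 := fun a ha => Finset.le_sup (f := id) ha
  -- the primes for the isolation
  set t : ℕ := (c0 + 1) * k2 with ht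
  obtain ⟨q, hq, hqi, hqM⟩ := ex_q (max (max c0 2) ⌈4 * (t : ℝ) / ε⌉₊)
  have hqc : ∀ d, c0 < q d := fun d => lt_of_le_of_lt ((le_max_left _ _).trans (le_max_left _ _)) (hqM d)
  have hq2 : ∀ d, q d ≠ 2 := fun d => by
    have := lt_of_le_of_lt ((le_max_right _ _).trans (le_max_left _ _)) (hqM d)
    omega
  have hqε : ∀ d, 4 * (t : ℝ) / ε ≤ q d := fun d => (Nat.le_ceil _).trans (by
    exact_mod_cast ((le_max_right _ _).trans (hqM d).le))
  obtain ⟨XH, hXH⟩ := Filter.eventually_atTop.1 (HH_tendsto.eventually_ge_atTop ((range (c0 + 1)).sup q))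
  obtain ⟨X₀, h0⟩ := hmain (ε / 2) (by positivity) (max Y₀ XH)
  refine ⟨max X₀ ⌈4 * (t : ℝ) / ε⌉₊, fun Q hQ cnt hcnt X hX => ?_⟩
  have h1 := h0 Q hQ cnt (fun X n h1 h2 h3 h4 => hcnt X n ((le_max_left _ _).trans h1) h2 h3 h4) X
    ((le_max_left _ _).trans hX)
  have hXε : 4 * (t : ℝ) / ε ≤ X := (Nat.le_ceil _).trans (by exact_mod_cast (le_max_right _ _).trans hX)
  have hgap : ∀ d, Gap S d → d ∈ range (c0 + 1) := by
    intro d hd
    obtain ⟨a, ha, hda⟩ := hd.2.2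
    have := hc0 a ha
    rw [mem_range]
    omega
  -- the exceptional integers for the isolation
  set w : ℕ → ℕ → ℕ := fun d a => τ a + d + (q d - 1) * e with hw
  set B : Finset ℕ := (range (c0 + 1)).biUnion (fun d => S.biUnion (fun a =>
    (Icc 1 X).filter (fun n => q d ∣ 2 * n + w d a))) with hB
  have hBc : (B.card : ℝ) ≤ ε / 2 * X := by
    have h2 : (B.card : ℝ) ≤ ∑ d ∈ range (c0 + 1), ∑ a ∈ S,
        (((Icc 1 X).filter (fun n => q d ∣ 2 * n + w d a)).card : ℝ) := by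
      have h3 : B.card ≤ ∑ d ∈ range (c0 + 1), ∑ a ∈ S, ((Icc 1 X).filter (fun n => q d ∣ 2 * n + w d a)).card := by
        refine card_biUnion_le.trans (sum_le_sum fun d _ => card_biUnion_le)
      exact_mod_cast h3
    have h3 : ∀ d ∈ range (c0 + 1), ∀ a ∈ S,
        (((Icc 1 X).filter (fun n => q d ∣ 2 * n + w d a)).card : ℝ) ≤ X / q d + 1 :=
      fun d _ a _ => card_class (q d) (w d a) X (hq d) (hq2 d)
    rcases Nat.eq_zero_or_pos t with ht0 | ht0
    · have hk0 : k2 = 0 := by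
        rcases Nat.mul_eq_zero.1 ht0 with h | h
        · omega
        · exact h
      have hS0 : S = ∅ := card_eq_zero.1 (hSc.trans hk0)
      have hB0 : B = ∅ := by
        rw [hB, hS0]
        ext n
        simp
      rw [hB0, card_empty, Nat.cast_zero]
      positivity
    have htr : (0 : ℝ) < t := by exact_mod_cast ht0
    have h4 : ∀ d ∈ range (c0 + 1), ∀ a ∈ S, (X : ℝ) / q d + 1 ≤ ε / (2 * t) * X := by
      intro d _ a _
      have h5 := hqε d
      have hq0 : (0 : ℝ) < q d := by exact_mod_cast (hq d).pos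
      rw [div_le_iff₀ hε] at h5 hXε
      have h6 : (X : ℝ) / q d ≤ ε / (4 * t) * X := by
        rw [div_le_iff₀ hq0]
        have h7 : 1 ≤ ε / (4 * t) * q d := by
          rw [div_mul_eq_mul_div, le_div_iff₀ (by positivity)]
          linarith
        calc (X : ℝ) = 1 * X := (one_mul _).symm
          _ ≤ (ε / (4 * t) * q d) * X := mul_le_mul_of_nonneg_right h7 (Nat.cast_nonneg _)
          _ = _ := by ring
      have h7 : 1 ≤ ε / (4 * t) * X := by
        rw [div_mul_eq_mul_div, le_div_iff₀ (by positivity)]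
        linarith
      have h8 : ε / (2 * t) * X = ε / (4 * t) * X + ε / (4 * t) * X := by
        field_simp
        ring
      rw [h8]
      exact add_le_add h6 h7
    calc (B.card : ℝ) ≤ ∑ d ∈ range (c0 + 1), ∑ a ∈ S, ε / (2 * t) * X :=
          h2.trans (sum_le_sum fun d hd => sum_le_sum fun a ha => (h3 d hd a ha).trans (h4 d hd a ha))
      _ = ε / 2 * X := by
          rw [sum_const, sum_const, card_range, hSc, nsmul_eq_mul, nsmul_eq_mul]
          have ht' : (t : ℝ) = (c0 + 1 : ℕ) * k2 := by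
            rw [ht]
            push_cast
            ring
          have h5 : ((c0 + 1 : ℕ) : ℝ) * ((k2 : ℝ) * (ε / (2 * t) * X)) = t * (ε / (2 * t) * X) := by
            rw [ht']
            ring
          rw [h5]
          field_simp
  have hsub : ((Icc 1 X).filter (fun n : ℕ => e ≤ 2 * n ∧
      (∀ p : ℕ, p.Prime → ∃ x : ℕ, ∀ a ∈ S, ¬ p ∣ x + a ∧ ¬ x ≡ 2 * n - e + τ a [MOD p]) ∧
      (cnt n : ℝ) < n / Real.log n ^ D)) ⊆ B ∪ ((Icc 1 X).filter (fun n : ℕ =>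
      (∀ Y : ℕ, max Y₀ XH ≤ Y → LocQ S τ (CI S Y) Y (2 * n - e)) ∧ (cnt n : ℝ) < n / Real.log n ^ D)) := by
    intro n hn
    rw [mem_filter] at hn
    obtain ⟨hn1, hn2, hn3, hn4⟩ := hn
    rw [mem_union]
    by_cases hnB : n ∈ B
    · exact Or.inl hnB
    right
    rw [mem_filter]
    refine ⟨hn1, fun Y hY => ?_, hn4⟩
    have hHH := hXH Y ((le_max_right _ _).trans hY)
    apply locI_of S τ Y (2 * n - e) q hq hqi (fun d a ha => lt_of_le_of_lt (hc0 a ha) (hqc d))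
      (fun d hd => (Finset.le_sup (f := q) (hgap d hd)).trans hHH) _ hn3
    intro d hd a ha hdv
    apply hnB
    rw [hB, mem_biUnion]
    refine ⟨d, hgap d hd, ?_⟩
    rw [mem_biUnion]
    refine ⟨a, ha, ?_⟩
    rw [mem_filter]
    refine ⟨hn1, ?_⟩
    have hq1 := (hq d).pos
    have h5 : 2 * n + w d a = (2 * n - e + τ a + d) + q d * e := by
      simp only [hw]
      have : (q d - 1) * e + e = q d * e := by
        rw [Nat.sub_mul, one_mul]
        have : e ≤ q d * e := Nat.le_mul_of_pos_left e hq1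
        omega
      omega
    rw [h5]
    exact dvd_add hdv (dvd_mul_right _ _)
  have h2 := (card_le_card hsub).trans (card_union_le _ _)
  have h3 : (((Icc 1 X).filter (fun n : ℕ => e ≤ 2 * n ∧
      (∀ p : ℕ, p.Prime → ∃ x : ℕ, ∀ a ∈ S, ¬ p ∣ x + a ∧ ¬ x ≡ 2 * n - e + τ a [MOD p]) ∧
      (cnt n : ℝ) < n / Real.log n ^ D)).card : ℝ) ≤ B.card + (((Icc 1 X).filter (fun n : ℕ =>
      (∀ Y : ℕ, max Y₀ XH ≤ Y → LocQ S τ (CI S Y) Y (2 * n - e)) ∧
      (cnt n : ℝ) < n / Real.log n ^ D)).card : ℝ) := by exact_mod_cast h2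
  linarith

end Pool.Agent.T2H22.AQ
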