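import Pool.Agent.T2H22.AQ.Gen

/-! Project AQ (selections): runs of consecutive primes. -/

set_option autoImplicit false

open Finset

namespace Pool.Agent.T2H22.AQ

open Pool.Agent.T2H22.AA
open Pool.Agent.T2H22.AD (fin_small)
open Pool.Agent.H862R2.PPSm5 (log_tendsto HH_tendsto)
open Pool.Agent.T2H22.BG (sh sh_inj)

/-- the `x`-th prime -/
noncomputable def pr (x : ℕ) : ℕ := Nat.nth Nat.Prime (x - 1)

theorem pr_prime (x : ℕ) : (pr x).Prime := Nat.prime_nth_prime _

theorem pr_inj {x y : ℕ} (hx : 1 ≤ x) (hy : 1 ≤ y) (h : pr x = pr y) : x = y := by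
  unfold pr at h
  have := Nat.nth_injective Nat.infinite_setOf_prime h
  omega

theorem pr_mono {x y : ℕ} (h : x ≤ y) : pr x ≤ pr y :=
  (Nat.nth_strictMono Nat.infinite_setOf_prime).monotone (by omega)

theorem lt_pr (i : ℕ) : i < pr (i + 1) := by
  unfold pr
  rw [Nat.add_sub_cancel]
  have h1 := Nat.add_two_le_nth_prime i
  omega

/-- the number of the primes below `n` -/
noncomputable def cp (n : ℕ) : ℕ := Nat.count Nat.Prime n

theorem pr_ge (n j : ℕ) (hj : 1 ≤ j) : n ≤ pr (cp n + j) := by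
  unfold pr cp
  refine (Nat.count_le_iff_le_nth Nat.infinite_setOf_prime).1 ?_
  show Nat.count Nat.Prime n ≤ _
  omega

theorem pr_lt {n x : ℕ} (hx : 1 ≤ x) (h : x ≤ cp n) : pr x < n := by
  unfold pr
  unfold cp at h
  refine (Nat.lt_nth_iff_count_lt Nat.infinite_setOf_prime).1 ?_
  show _ < Nat.count Nat.Prime n
  omega

theorem pr_cp {q : ℕ} (hq : q.Prime) : pr (cp q + 1) = q := by
  unfold pr cp
  rw [Nat.add_sub_cancel]
  exact Nat.nth_count hq

open Classical in
theorem cp_add (S : Finset ℕ) (y m0 m1 : ℕ) (h01 : m0 ≤ m1) (h0 : ∀ a ∈ S, m0 ≤ a) (h1 : ∀ a ∈ S, a ≤ m1) :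
    cp (y + m0) + (S.filter (fun a => (y + a).Prime)).card ≤ cp (y + m1 + 1) := by
  unfold cp
  rw [Nat.count_eq_card_filter_range, Nat.count_eq_card_filter_range]
  have h2 : (S.filter (fun a => (y + a).Prime)).card = ((S.filter (fun a => (y + a).Prime)).image (fun a => y + a)).card :=
    (card_image_of_injective _ (add_right_injective y)).symm
  rw [h2, ← card_union_of_disjoint]
  · apply card_le_card
    intro p hp
    rw [mem_union, mem_filter, mem_image] at hp
    rw [mem_filter, mem_range]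
    rcases hp with hp | ⟨a, ha, rfl⟩
    · rw [mem_range] at hp
      exact ⟨by omega, hp.2⟩
    · rw [mem_filter] at ha
      have := h1 a ha.1
      exact ⟨by omega, ha.2⟩
  · rw [disjoint_left]
    intro p hp hp'
    rw [mem_filter, mem_range] at hp
    rw [mem_image] at hp'
    obtain ⟨a, ha, rfl⟩ := hp'
    rw [mem_filter] at ha
    have := h0 a ha.1
    omega

open Classical in
/-- the primes of a run in an isolated window -/
theorem run_mem {S : Finset ℕ} {y m0 K : ℕ} (hm0 : m0 ∈ S) (hmin : ∀ a ∈ S, m0 ≤ a) (hI : Iso S y)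
    (hK : K ≤ (S.filter (fun a => (y + a).Prime)).card) {j : ℕ} (hj : 1 ≤ j) (hjK : j ≤ K) :
    ∃ a ∈ S, pr (cp (y + m0) + j) = y + a := by
  set m1 : ℕ := S.sup id with hm1
  have hmax : ∀ a ∈ S, a ≤ m1 := fun a ha => Finset.le_sup (f := id) ha
  have h1 := cp_add S y m0 m1 (hmax m0 hm0) hmin hmax
  have h2 := pr_ge (y + m0) j hj
  have h3 : pr (cp (y + m0) + j) < y + m1 + 1 := pr_lt (by omega) (by omega)
  obtain ⟨m, hm, hme⟩ := exists_mem_eq_sup S ⟨m0, hm0⟩ id
  have hp := pr_prime (cp (y + m0) + j)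
  set p := pr (cp (y + m0) + j) with hpd
  by_contra hcon
  push Not at hcon
  have hgap : Gap S (p - y) := by
    refine ⟨fun h => hcon _ h (by omega), ⟨m0, hm0, by omega⟩, m, hm, ?_⟩
    simp only [id] at hme
    omega
  apply hI _ hgap
  rw [show y + (p - y) = p by omega]
  exact hp

/-- the selection of primes from a run by a rule for the positions -/
def QR (S : Finset ℕ) (m0 : ℕ) (σ : ℕ → Finset ℕ) (y a : ℕ) : Prop :=
  ∃ j ∈ σ (cp (y + m0)), pr (cp (y + m0) + j) = y + a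

/-- the selection in isolated windows with many primes only -/
def QI (S : Finset ℕ) (m0 K : ℕ) (σ : ℕ → Finset ℕ) (y a : ℕ) : Prop :=
  (∃ j ∈ σ (cp (y + m0)), pr (cp (y + m0) + j) = y + a) ∧ pr (cp (y + m0) + K) ≤ y + S.sup id

open Classical in
theorem sel_run {S : Finset ℕ} {m0 K k : ℕ} (hk : 1 ≤ k) (hkK : k ≤ K) (hm0 : m0 ∈ S) (hmin : ∀ a ∈ S, m0 ≤ a)
    (σ : ℕ → Finset ℕ) (hσ : ∀ i, σ i ⊆ Icc 1 K ∧ k ≤ (σ i).card) : Sel S K k (QI S m0 K σ) := by
  intro y hI hK
  refine (hσ (cp (y + m0))).2.trans ?_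
  have hsub := (hσ (cp (y + m0))).1
  apply card_le_card_of_injOn (fun j => pr (cp (y + m0) + j) - y)
  · intro j hj
    have h1 := mem_Icc.1 (hsub hj)
    obtain ⟨a, ha, hpa⟩ := run_mem hm0 hmin hI hK h1.1 h1.2
    rw [mem_coe, mem_filter]
    simp only
    rw [hpa, Nat.add_sub_cancel_left]
    refine ⟨ha, ⟨j, hj, hpa⟩, ?_⟩
    obtain ⟨a', ha', hpa'⟩ := run_mem hm0 hmin hI hK (j := K) (by omega) le_rfl
    rw [hpa']
    have : a' ≤ S.sup id := Finset.le_sup (f := id) ha'
    omega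
  · intro j hj j' hj' he
    have h1 := mem_Icc.1 (hsub hj)
    have h1' := mem_Icc.1 (hsub hj')
    obtain ⟨a, ha, hpa⟩ := run_mem hm0 hmin hI hK h1.1 h1.2
    obtain ⟨a', ha', hpa'⟩ := run_mem hm0 hmin hI hK h1'.1 h1'.2
    simp only at he
    have h2 : pr (cp (y + m0) + j) = pr (cp (y + m0) + j') := by
      rw [hpa, hpa'] at he ⊢
      omega
    have := pr_inj (by omega) (by omega) h2
    omega

/-- `x` is the first index of a representation of `2 n` -/
def Idx (n x : ℕ) : Prop := ∃ y : ℕ, 1 ≤ y ∧ pr x + pr y = 2 * n ∧ pr x ≠ pr y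

open Classical in
/-- the number of the good runs of `K` consecutive primes -/
noncomputable def runs (σ : ℕ → Finset ℕ) (r K C n : ℕ) : ℕ :=
  ((range (2 * n)).filter (fun i => pr (i + K) ≤ pr (i + 1) + C ∧
    r ≤ ((σ i).filter (fun j => Idx n (i + j))).card)).card

open Classical in
theorem main_R (hSec : SecM) (r : ℕ) : ∃ k : ℕ, 1 ≤ k ∧ ∀ K : ℕ, k ≤ K → ∃ C D : ℕ, ∀ ε : ℝ, 0 < ε →
    ∃ X₀ : ℕ, ∀ σ : ℕ → Finset ℕ, (∀ i, σ i ⊆ Icc 1 K ∧ k ≤ (σ i).card) → ∀ X : ℕ, X₀ ≤ X →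
    (((Icc 1 X).filter (fun n : ℕ => (runs σ r K C n : ℝ) < n / Real.log n ^ D)).card : ℝ) ≤ ε * X := by
  obtain ⟨k, hk, hmain⟩ := all_Q hSec (r + 1)
  refine ⟨k, hk, fun K hK => ?_⟩
  obtain ⟨k2, hk2, hmain⟩ := hmain K hK
  -- the tuple
  set M0 : ℕ := (2 * k2 + 2).factorial with hM0
  have hM00 : 0 < M0 := Nat.factorial_pos _
  set S : Finset ℕ := (range k2).image (sh M0) with hS
  have hSc : S.card = k2 := by
    rw [hS, card_image_of_injective _ (sh_inj hM00), card_range]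
  have hmin : ∀ a ∈ S, M0 ≤ a := by
    intro a ha
    rw [hS, mem_image] at ha
    obtain ⟨i, _, rfl⟩ := ha
    unfold sh
    exact Nat.le_mul_of_pos_right _ (by omega)
  have hS1 : ∀ a ∈ S, 1 ≤ a := fun a ha => le_trans hM00 (hmin a ha)
  have hm0 : M0 ∈ S := by
    rw [hS, mem_image]
    refine ⟨0, mem_range.2 (by omega), ?_⟩
    unfold sh
    ring
  have hSdiv : ∀ a ∈ S, ∀ p : ℕ, p.Prime → p ≤ 2 * k2 + 2 → p ∣ a := by
    intro a ha p hp hpk
    rw [hS, mem_image] at ha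
    obtain ⟨i, _, rfl⟩ := ha
    unfold sh
    exact dvd_mul_of_dvd_left ((hp.dvd_factorial).2 hpk) _
  set c0 : ℕ := S.sup id with hc0d
  have hc0 : ∀ a ∈ S, a ≤ c0 := fun a ha => Finset.le_sup (f := id) ha
  set τ : ℕ → ℕ := fun s => c0 + 1 - s with hτ
  obtain ⟨D, h⟩ := hmain S τ hSc hS1 (by
      intro s hs s' hs' he
      have h1 := hc0 s hs
      have h2 := hc0 s' hs'
      simp only [hτ] at he
      omega) (fun s hs => by
      have h1 := hc0 s hs
      simp only [hτ]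
      omega) (c0 + 1)
  refine ⟨c0, D + 1, fun ε hε => ?_⟩
  obtain ⟨X₀, h0⟩ := h (ε / 2) (by positivity) (c0 + 1)
  obtain ⟨Xl, hXl⟩ := Filter.eventually_atTop.1 (log_tendsto.eventually_ge_atTop ((c0 : ℝ) + 1))
  set c : ℕ := max Xl (c0 + 2) with hcd
  refine ⟨max X₀ ⌈2 * (c : ℝ) / ε⌉₊, fun σ hσ X hX => ?_⟩
  have h1 := h0 (QI S M0 K σ) (sel_run hk hK hm0 hmin σ hσ) (fun n => (c0 + 1) * runs σ r K c0 n) (by
    intro X n hX1 hX2 hX3 he
    unfold gdQ
    set A := (Ico (4 * X) (8 * X)).filter (fun x => x ≤ 2 * n - (c0 + 1) ∧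
      r + 1 ≤ (S.filter (fun a => QI S M0 K σ (2 * n - (c0 + 1) - x) a ∧ (x + τ a).Prime)).card) with hA
    set f : ℕ → ℕ := fun x => cp (2 * n - (c0 + 1) - x + M0) with hf
    -- the properties of the elements of `A`
    have hAp : ∀ x ∈ A, x ≤ 2 * n - (c0 + 1) ∧ 4 * X ≤ x ∧ f x < 2 * n ∧
        2 * n - (c0 + 1) - x + M0 ≤ pr (f x + 1) ∧ pr (f x + 1) ≤ pr (f x + K) ∧
        pr (f x + K) ≤ 2 * n - (c0 + 1) - x + c0 := by
      intro x hx
      rw [hA, mem_filter, mem_Ico] at hx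
      obtain ⟨⟨hx1, hx2⟩, hx3, hx4⟩ := hx
      obtain ⟨a, ha⟩ : (S.filter (fun a => QI S M0 K σ (2 * n - (c0 + 1) - x) a ∧ (x + τ a).Prime)).Nonempty := by
        rw [← card_pos]
        omega
      rw [mem_filter] at ha
      obtain ⟨haS, ⟨⟨j, hj, hjp⟩, hjK⟩, hap⟩ := ha
      have hj1 := mem_Icc.1 ((hσ _).1 hj)
      have e1 : f x < pr (f x + 1) := lt_pr _
      have e2 : pr (f x + 1) ≤ pr (f x + j) := pr_mono (by omega)
      have e3 := hc0 a haS
      have e4 : pr (f x + j) = 2 * n - (c0 + 1) - x + a := hjp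
      refine ⟨hx3, hx1, by omega, pr_ge _ 1 le_rfl, pr_mono (by omega), hjK⟩
    have hfib : ∀ i ∈ A.image f, (A.filter (fun x => f x = i)).card ≤ c0 + 1 := by
      intro i _
      have h2 : (A.filter (fun x => f x = i)).card ≤ (Icc (pr (i + 1) - c0) (pr (i + 1))).card := by
        apply card_le_card_of_injOn (fun x => 2 * n - (c0 + 1) - x)
        · intro x hx
          rw [mem_coe, mem_filter] at hx
          obtain ⟨hx1, rfl⟩ := hx
          obtain ⟨e1, e2, e3, e4, e5, e6⟩ := hAp x hx1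
          rw [mem_coe, mem_Icc]
          simp only
          omega
        · intro x hx x' hx' he
          rw [mem_coe, mem_filter] at hx hx'
          have e1 := (hAp x hx.1).1
          have e2 := (hAp x' hx'.1).1
          simp only at he
          omega
      rw [Nat.card_Icc] at h2
      omega
    refine (card_le_mul_card_image A (c0 + 1) hfib).trans ?_
    apply Nat.mul_le_mul_left
    unfold runs
    apply card_le_card
    intro i hi
    rw [mem_image] at hi
    obtain ⟨x, hx, rfl⟩ := hi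
    obtain ⟨e1, e2, e3, e4, e5, e6⟩ := hAp x hx
    rw [mem_filter, mem_range]
    refine ⟨e3, by omega, ?_⟩
    rw [hA, mem_filter] at hx
    have h2 := hx.2.2
    refine (Nat.le_succ r).trans (h2.trans ?_)
    have h3 : S.filter (fun a => QI S M0 K σ (2 * n - (c0 + 1) - x) a ∧ (x + τ a).Prime) ⊆
        ((σ (f x)).filter (fun j => Idx n (f x + j))).image (fun j => pr (f x + j) - (2 * n - (c0 + 1) - x)) := by
      intro a ha
      rw [mem_filter] at ha
      obtain ⟨haS, ⟨⟨j, hj, hjp⟩, hjK⟩, hap⟩ := ha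
      have hac := hc0 a haS
      have hjp' : pr (f x + j) = 2 * n - (c0 + 1) - x + a := hjp
      rw [mem_image]
      refine ⟨j, ?_, by rw [hjp']; omega⟩
      rw [mem_filter]
      refine ⟨hj, cp (x + τ a) + 1, by omega, ?_, ?_⟩
      · rw [pr_cp hap, hjp']
        simp only [hτ]
        omega
      · rw [pr_cp hap, hjp']
        simp only [hτ]
        omega
    exact (card_le_card h3).trans card_image_le) X ((le_max_left _ _).trans hX)
  refine fin_small c hε (by
    have h2 : 2 * (c : ℝ) / ε ≤ X := (Nat.le_ceil _).trans (by exact_mod_cast (le_max_right _ _).trans hX)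
    rw [div_le_iff₀ hε] at h2
    linarith) h1 ?_
  intro n hn hcn hP
  have hc1 : Xl ≤ n := (le_max_left _ _).trans hcn
  have hc2 : c0 + 2 ≤ n := (le_max_right _ _).trans hcn
  have hlog := hXl n hc1
  refine ⟨by omega, fun p hp => ?_, ?_⟩
  · obtain ⟨x, hx1, hx2⟩ := class_p S k2 hSc.le hSdiv (2 * n) (even_two_mul n) p hp
    refine ⟨x, fun a ha => ⟨(hx2 a ha).1, fun hm => (hx2 a ha).2 ?_⟩⟩
    have h2 := hc0 a ha
    have h3 : x + a ≡ 2 * n - (c0 + 1) + τ a + a [MOD p] := Nat.ModEq.add_right a hm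
    rwa [show 2 * n - (c0 + 1) + τ a + a = 2 * n by simp only [hτ]; omega] at h3
  · have hl0 : 0 < Real.log (n : ℝ) := by
      have : (0 : ℝ) ≤ c0 := Nat.cast_nonneg _
      linarith
    have hc00 : (0 : ℝ) < c0 + 1 := by positivity
    push_cast
    calc ((c0 : ℝ) + 1) * (runs σ r K c0 n : ℝ) < (c0 + 1) * (n / Real.log n ^ (D + 1)) :=
          mul_lt_mul_of_pos_left hP hc00
      _ = ((c0 + 1) / Real.log n) * (n / Real.log n ^ D) := by
          rw [pow_succ]
          field_simp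
      _ ≤ 1 * (n / Real.log n ^ D) := by
          apply mul_le_mul_of_nonneg_right _ (by positivity)
          rw [div_le_one hl0]
          exact hlog
      _ = _ := one_mul _

end Pool.Agent.T2H22.AQ
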